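import Pool.Agent.Lib_helper33.ASM.Stmts

/-!
# Module LB: lower bound for the density of unmatched points (parity)

The content of the unit cube `0` is resampled.  With probability at least `2/5` the parity of the
number of points changes.  The change is felt far away only with small probability (module LOC).  If it is
not felt far away, then one of the two configurations has an unmatched point in a large ball, since the
set of the sites of the ball together with their partners is the same for both.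
-/

set_option autoImplicit false

open scoped BigOperators

namespace Pool.Agent.Lib_helper93.ASM

open Pool.Agent.Lib_helper33.ASM

variable {d : ℕ}

/-- two configurations which differ only in a set `Q` in the ball, such that the matchings agree in
the annulus, and which have no unmatched points in the ball, have the same parity in `Q`. -/
lemma parity_ball {ι : Type} [Fintype ι] [DecidableEq ι] (x : ι → Sp d) (hx : Gen x) {t ρ R : ℝ}
    (hR : ρ + t ≤ R) (ω ω' : Cfg ι) (Q : Finset ι) (hQ : ∀ s ∈ Q, dist (x s) 0 ≤ R)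
    (hc : ∀ s, s ∉ Q → ω s = ω' s)
    (hA : Agree x ω ω' {s | ρ < dist (x s) 0 ∧ dist (x s) 0 ≤ R} t)
    (hU : ¬ ∃ s, dist (x s) 0 ≤ R ∧ Un x ω t s) (hU' : ¬ ∃ s, dist (x s) 0 ≤ R ∧ Un x ω' t s)
    [DecidablePred fun i => ω i ≠ none] [DecidablePred fun i => ω' i ≠ none] :
    (Even (Q.filter fun i => ω i ≠ none).card ↔ Even (Q.filter fun i => ω' i ≠ none).card) := by
  classical
  push Not at hU hU'
  -- the closed set
  set F : Finset ι := Finset.univ.filter fun j => dist (x j) 0 ≤ R ∨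
    ∃ i, dist (x i) 0 ≤ R ∧ mt x ω i j ∧ dist (x i) (x j) < t with hF
  have hF' : F = Finset.univ.filter fun j => dist (x j) 0 ≤ R ∨
      ∃ i, dist (x i) 0 ≤ R ∧ mt x ω' i j ∧ dist (x i) (x j) < t := by
    have key : ∀ j, ¬ dist (x j) 0 ≤ R → ∀ i, dist (x i) 0 ≤ R → dist (x i) (x j) < t →
        (mt x ω i j ↔ mt x ω' i j) := by
      intro j hj i hi hij
      refine hA i ⟨?_, hi⟩ j hij
      have := dist_triangle_left (x j) 0 (x i)
      push Not at hj
      linarith
    ext j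
    rw [hF, Finset.mem_filter, Finset.mem_filter]
    simp only [Finset.mem_univ, true_and]
    by_cases hj : dist (x j) 0 ≤ R
    · simp only [hj, true_or]
    · simp only [hj, false_or]
      constructor
      · rintro ⟨i, hi, hm, hd⟩
        exact ⟨i, hi, (key j hj i hi hd).1 hm, hd⟩
      · rintro ⟨i, hi, hm, hd⟩
        exact ⟨i, hi, (key j hj i hi hd).2 hm, hd⟩
  have hclosed : ∀ (η : Cfg ι), (∀ s, dist (x s) 0 ≤ R → ¬ Un x η t s) →
      F = (Finset.univ.filter fun j => dist (x j) 0 ≤ R ∨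
      ∃ i, dist (x i) 0 ≤ R ∧ mt x η i j ∧ dist (x i) (x j) < t) →
      ∀ i ∈ F, η i ≠ none → ∃ j ∈ F, mt x η i j ∧ dist (x i) (x j) < t := by
    intro η hη hFη i hi hi0
    rw [hFη] at hi ⊢
    simp only [Finset.mem_filter, Finset.mem_univ, true_and] at hi ⊢
    by_cases hiR : dist (x i) 0 ≤ R
    · have h1 := hη i hiR
      have h2 : Bf x η t i := by
        by_contra h3
        exact h1 ⟨hi0, h3⟩
      obtain ⟨j, hm, hd⟩ := h2
      exact ⟨j, Or.inr ⟨i, hiR, hm, hd⟩, hm, hd⟩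
    · rcases hi with hi | ⟨k, hk, hm, hd⟩
      · exact absurd hi hiR
      · exact ⟨k, Or.inl hk, mt_symm hm, by rw [dist_comm]; exact hd⟩
  have e1 := even_of_closed (ω := ω) hx F (hclosed ω hU hF)
  have e2 := even_of_closed (ω := ω') hx F (hclosed ω' hU' hF')
  have hQF : Q ⊆ F := by
    intro s hs
    rw [hF, Finset.mem_filter]
    exact ⟨Finset.mem_univ _, Or.inl (hQ s hs)⟩
  have split : ∀ (P : ι → Prop) [DecidablePred P],
      (F.filter P).card = (Q.filter P).card + ((F \ Q).filter P).card := by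
    intro P _
    rw [← Finset.card_union_of_disjoint, ← Finset.filter_union, Finset.union_sdiff_of_subset hQF]
    exact Finset.disjoint_filter_filter Finset.disjoint_sdiff
  have hrest : ((F \ Q).filter fun i => ω i ≠ none).card =
      ((F \ Q).filter fun i => ω' i ≠ none).card := by
    congr 1
    apply Finset.filter_congr
    intro s hs
    rw [hc s (Finset.mem_sdiff.1 hs).2]
  rw [split] at e1 e2
  rw [← hrest] at e2
  rw [Nat.even_add] at e1 e2
  rw [e1, e2]

theorem stmtLB {p : ℝ} (hp0 : 0 < p) (hp1 : p < 1) (hLOC : StmtLOC d p) : StmtLB d p := by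
  classical
  obtain ⟨C, hC, hLOC⟩ := hLOC
  -- choice of `l`
  obtain ⟨l, hl1, hl2⟩ : ∃ l : ℕ, C * (1 / 2 : ℝ) ^ ((d + 2) * l) ≤ 1 / 5 ∧ (d : ℝ) ≤ 2 ^ l := by
    have h1 : Filter.Tendsto (fun l : ℕ => C * (1 / 2 : ℝ) ^ l) Filter.atTop (nhds (C * 0)) :=
      (tendsto_pow_atTop_nhds_zero_of_lt_one (by norm_num) (by norm_num)).const_mul C
    rw [mul_zero] at h1
    obtain ⟨l, hl, hl'⟩ := ((h1.eventually_lt_const (u := (1 / 5 : ℝ)) (by norm_num)).and
      (Filter.eventually_ge_atTop d)).exists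
    refine ⟨l, ?_, ?_⟩
    · refine le_trans ?_ hl.le
      apply mul_le_mul_of_nonneg_left _ hC.le
      apply pow_le_pow_of_le_one (by norm_num) (by norm_num)
      nlinarith
    · calc (d : ℝ) ≤ (l : ℝ) := by exact_mod_cast hl'
        _ ≤ 2 ^ l := by exact_mod_cast (Nat.lt_two_pow_self (n := l)).le
  refine ⟨(1 / 120) * (1 / 2) ^ (d * (l + 4)), by positivity, fun I => ?_⟩
  refine Ev.mono ((Ev.good p (I + l) (2 ^ (l + I + 2) + 1 + I) (one_pos)).and (hLOC (I + l))) ?_
  rintro 𝓜 ⟨hG, hL⟩ i hi j hj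
  have hPar : Par 𝓜.a p := hG.par hp0 hp1
  set t : ℝ := 2 ^ i with ht
  set R : ℝ := 2 ^ (l + i + 2) with hR
  set ρ : ℝ := 2 ^ (l + i) + d with hρ
  have ht1 : 1 ≤ t := one_le_pow₀ (by norm_num)
  have hli : (2 : ℝ) ^ (l + i) = 2 ^ l * 2 ^ i := pow_add _ _ _
  have h2l : (1 : ℝ) ≤ 2 ^ l := one_le_pow₀ (by norm_num)
  have h2i : (1 : ℝ) ≤ 2 ^ i := one_le_pow₀ (by norm_num)
  have hR4 : R = 4 * 2 ^ (l + i) := by rw [hR, pow_add]; ring
  have hdli : (d : ℝ) ≤ 2 ^ (l + i) := by rw [hli]; nlinarith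
  have htli : t ≤ 2 ^ (l + i) := by rw [hli, ht]; nlinarith
  have hρR : ρ + t ≤ R := by rw [hR4, hρ]; nlinarith
  have hR0 : 0 ≤ R := by positivity
  -- the cube
  set Q : Finset 𝓜.ι := Finset.univ.filter fun s => cb (𝓜.x s) = 0 with hQ
  have hn1 : 1 ≤ 𝓜.n := le_trans (by have := Nat.zero_le (2 ^ (l + I + 2)); omega) hG.n_le
  have hQd : ∀ s ∈ Q, dist (𝓜.x s) 0 ≤ d := by
    intro s hs
    rw [dist_zero_right]
    have := norm_le_of_cb (Finset.mem_filter.1 hs).2 (B := 0) (by simp)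
    simpa using this
  have hQa : 1 / 2 ≤ 𝓜.a * Q.card := by
    have := hG.dens_lo 0 (by intro k; simp only [Pi.zero_apply]; constructor <;> omega)
    rw [hQ]
    unfold cnt at this
    refine this.trans_eq ?_
    congr 2
    refine congrArg Finset.card ?_
    ext s
    simp
  -- the event
  set U : Cfg 𝓜.ι → Prop := fun ω => ∃ s, dist (𝓜.x s) 0 ≤ R ∧ Un 𝓜.x ω t s with hU
  set N : Cfg 𝓜.ι → ℕ := fun ω => (Q.filter fun i => ω i ≠ none).card with hN
  have hNc : ∀ ω : Cfg 𝓜.ι, (N ω : ℝ) = cnt fun i => i ∈ Q ∧ ω i ≠ none := by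
    intro ω
    unfold cnt
    rw [hN]
    refine congrArg Nat.cast (congrArg Finset.card ?_)
    ext s
    simp [Finset.mem_filter]
  have hpar := parity_resample hPar Q hQa N hNc
  set D : Set 𝓜.ι := {s | s ∉ Q} with hD
  set A : Set 𝓜.ι := {s | ρ < dist (𝓜.x s) 0 ∧ dist (𝓜.x s) 0 ≤ R} with hA
  have hmixN : ∀ ω ω' : Cfg 𝓜.ι, N (mix D ω ω') = N ω' := by
    intro ω ω'
    rw [hN]
    simp only
    congr 1
    apply Finset.filter_congr
    intro s hs
    have : s ∉ D := by simp [hD, hs]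
    simp [mix, this]
  have hstep : ∀ ω ω' : Cfg 𝓜.ι, ¬ (Even (N ω) ↔ Even (N ω')) →
      (¬ Agree 𝓜.x (mix D ω ω') ω A t ∨ U ω) ∨ U (mix D ω ω') := by
    intro ω ω' hne
    by_contra hcon
    push Not at hcon
    obtain ⟨⟨hag, hu⟩, hu'⟩ := hcon
    apply hne
    rw [← hmixN ω ω']
    exact parity_ball 𝓜.x 𝓜.gen hρR ω (mix D ω ω') Q
      (fun s hs => (hQd s hs).trans (by rw [hR4]; nlinarith))
      (fun s hs => by have : s ∈ D := hs
                      simp [mix, this]) hag.symm hu hu'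
  -- the bound
  have hI1 : 2 / 5 ≤ 𝓜.a * 0 + (1 / 5 + pr 𝓜.a p U + pr 𝓜.a p U) := by
    have hbound : ∀ ω' : Cfg 𝓜.ι, pr 𝓜.a p (fun ω => ¬ (Even (N ω) ↔ Even (N ω'))) ≤
        (1 / 5 + pr 𝓜.a p U) + pr 𝓜.a p (fun ω => U (mix D ω ω')) := by
      intro ω'
      calc pr 𝓜.a p (fun ω => ¬ (Even (N ω) ↔ Even (N ω')))
          ≤ pr 𝓜.a p (fun ω => (¬ Agree 𝓜.x (mix D ω ω') ω A t ∨ U ω) ∨ U (mix D ω ω')) :=
            pr_mono hPar (fun ω h => hstep ω ω' h)
        _ ≤ pr 𝓜.a p (fun ω => ¬ Agree 𝓜.x (mix D ω ω') ω A t ∨ U ω) +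
            pr 𝓜.a p (fun ω => U (mix D ω ω')) := pr_or_le hPar _ _
        _ ≤ (pr 𝓜.a p (fun ω => ¬ Agree 𝓜.x (mix D ω ω') ω A t) + pr 𝓜.a p U) +
            pr 𝓜.a p (fun ω => U (mix D ω ω')) := by
            gcongr
            exact pr_or_le hPar _ _
        _ ≤ _ := by
            gcongr
            refine (hL i (by omega) l (by omega) 0 (by rw [norm_zero]; positivity) D A ω' ?_ ?_).trans hl1
            · intro s hs
              refine hs.2.trans ?_
              rw [hR]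
              exact pow_le_pow_right₀ (by norm_num) (by omega)
            · intro s hs s' hss'
              by_contra hs'
              have hs'Q : s' ∈ Q := by
                by_contra h
                exact hs' h
              have h1 := hQd s' hs'Q
              have h2 := dist_triangle (𝓜.x s) (𝓜.x s') 0
              have h3 : ρ < dist (𝓜.x s) 0 := hs.1
              rw [hρ] at h3
              linarith
    have h1 : ex 𝓜.a p (fun ω' => pr 𝓜.a p (fun ω => ¬ (Even (N ω) ↔ Even (N ω')))) ≤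
        (1 / 5 + pr 𝓜.a p U) + ex 𝓜.a p (fun ω' => pr 𝓜.a p (fun ω => U (mix D ω ω'))) := by
      refine (ex_mono hPar hbound).trans_eq ?_
      rw [ex_add, ex_const]
    have h2 : ex 𝓜.a p (fun ω' => pr 𝓜.a p (fun ω => U (mix D ω ω'))) = pr 𝓜.a p U := by
      unfold pr
      rw [← ex_mix D (fun ω => ind (U ω))]
    rw [h2] at h1
    linarith
  have hPU : 1 / 10 ≤ pr 𝓜.a p U := by linarith
  -- from the event to densities
  have hcube : ∀ k ∈ cubes (0 : Sp d) R, ∀ m, |k m| ≤ ((2 ^ (l + I + 2) + 1 + I : ℕ) : ℤ) := by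
    intro k hk m
    have h1 := abs_le_of_mem_cubes hk (B := 2 ^ (l + I + 2) + 1 + I) (by
      rw [norm_zero, hR]
      have : (2 : ℝ) ^ (l + i + 2) ≤ 2 ^ (l + I + 2) := pow_le_pow_right₀ (by norm_num) (by omega)
      have h0 : (0 : ℝ) ≤ I := Nat.cast_nonneg I
      linarith) m
    exact_mod_cast h1
  have hjn : ∀ m, |j m| ≤ ((2 ^ (l + I + 2) + 1 + I : ℕ) : ℤ) := by
    intro m
    refine (hj m).trans ?_
    push_cast
    have : (0 : ℤ) ≤ 2 ^ (l + I + 2) := by positivity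
    linarith
  have hsum : pr 𝓜.a p U ≤ ∑ k ∈ cubes (0 : Sp d) R, (ER p 𝓜 k t + EB p 𝓜 k t) := by
    have h1 : ∀ ω : Cfg 𝓜.ι, ind (U ω) ≤ ∑ k ∈ cubes (0 : Sp d) R,
        ((cnt fun s => cb (𝓜.x s) = k ∧ ω s = some true ∧ Un 𝓜.x ω t s) +
          cnt fun s => cb (𝓜.x s) = k ∧ ω s = some false ∧ Un 𝓜.x ω t s) := by
      intro ω
      calc ind (U ω) ≤ cnt fun s => dist (𝓜.x s) 0 ≤ R ∧ Un 𝓜.x ω t s := ind_exists_le_cnt _
        _ ≤ cnt fun s => ∃ k ∈ cubes (0 : Sp d) R,
            ((cb (𝓜.x s) = k ∧ ω s = some true ∧ Un 𝓜.x ω t s) ∨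
            (cb (𝓜.x s) = k ∧ ω s = some false ∧ Un 𝓜.x ω t s)) := by
            refine cnt_mono fun s hs => ⟨cb (𝓜.x s), mem_cubes hs.1, ?_⟩
            have h0 : ω s ≠ none := hs.2.1
            rcases hos : ω s with _ | b
            · exact absurd hos h0
            · cases b
              · exact Or.inr ⟨rfl, rfl, hs.2⟩
              · exact Or.inl ⟨rfl, rfl, hs.2⟩
        _ ≤ ∑ k ∈ cubes (0 : Sp d) R, cnt fun s =>
            ((cb (𝓜.x s) = k ∧ ω s = some true ∧ Un 𝓜.x ω t s) ∨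
            (cb (𝓜.x s) = k ∧ ω s = some false ∧ Un 𝓜.x ω t s)) :=
            cnt_exists_le (cubes (0 : Sp d) R) (fun k s =>
              ((cb (𝓜.x s) = k ∧ ω s = some true ∧ Un 𝓜.x ω t s) ∨
              (cb (𝓜.x s) = k ∧ ω s = some false ∧ Un 𝓜.x ω t s)))
        _ ≤ _ := Finset.sum_le_sum fun k _ => cnt_or_le _ _
    refine (ex_mono hPar h1).trans_eq ?_
    rw [ex_sum]
    refine Finset.sum_congr rfl fun k _ => ?_
    rw [ex_add]
    rfl
  have hER0 : 0 ≤ ER p 𝓜 j t := ex_nonneg hPar fun ω => cnt_nonneg _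
  have hsum2 : pr 𝓜.a p U ≤ (cubes (0 : Sp d) R).card * (6 * ER p 𝓜 j t) := by
    refine hsum.trans ?_
    rw [← nsmul_eq_mul]
    refine Finset.sum_le_card_nsmul _ _ _ fun k hk => ?_
    have h1 := hG.blue i (by omega) k (hcube k hk)
    have h2 := hG.shift i (by omega) k j (hcube k hk) hjn
    linarith
  have hcard : ((cubes (0 : Sp d) R).card : ℝ) ≤ 2 ^ (d * (l + 4)) * 2 ^ (d * i) := by
    refine (card_cubes (0 : Sp d) hR0).trans ?_
    calc (2 * R + 2) ^ d ≤ (2 ^ (l + 4) * 2 ^ i) ^ d := by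
          apply pow_le_pow_left₀ (by positivity)
          rw [hR4, hli, pow_add]
          nlinarith
      _ = _ := by rw [mul_pow, ← pow_mul, ← pow_mul, mul_comm d (l + 4), mul_comm d i]
  have hER : 1 / 60 * ((1 / 2) ^ (d * (l + 4)) * (1 / 2) ^ (d * i)) ≤ ER p 𝓜 j t := by
    have h1 : 1 / 10 ≤ (2 ^ (d * (l + 4)) * 2 ^ (d * i)) * (6 * ER p 𝓜 j t) :=
      hPU.trans (hsum2.trans (mul_le_mul_of_nonneg_right hcard (by positivity)))
    have h2 : (0 : ℝ) < 2 ^ (d * (l + 4)) * 2 ^ (d * i) := by positivity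
    have h3 : (1 / 2 : ℝ) ^ (d * (l + 4)) * (1 / 2) ^ (d * i) =
        (2 ^ (d * (l + 4)) * 2 ^ (d * i))⁻¹ := by
      rw [one_div, inv_pow, inv_pow, mul_inv]
    rw [h3, ← div_eq_mul_inv, div_le_iff₀ h2]
    linarith
  have hEReq := ER_eq 𝓜 hPar j t
  have hcs0 : 0 ≤ cs 𝓜 j (vv p 𝓜 t) := by
    unfold cs
    refine mul_nonneg hG.a_pos.le (Finset.sum_nonneg fun s _ => ?_)
    split_ifs
    · exact pr_nonneg hPar _
    · exact le_rfl
  have hcsER : ER p 𝓜 j t ≤ 2 * cs 𝓜 j (vv p 𝓜 t) := by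
    rw [hEReq]
    refine mul_le_mul_of_nonneg_right ?_ hcs0
    rw [div_le_iff₀ (by linarith [hG.a_half])]
    nlinarith [hG.a_half]
  rw [mul_assoc]
  nlinarith [hER, hcsER]

end Pool.Agent.Lib_helper93.ASM
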